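import Pool.Agent.R779.HK.Tup

set_option autoImplicit false

/-! # The strong monodromy conjecture for forms over Hankel determinantal ideals

Let `x_0, …, x_{N - 1}` be the coordinates of the affine space. The Hankel matrices of rank at most `d`
form a closed subset `Σ_d`, `2 d < N`, of dimension `2 d`: the affine cone over the variety of
`d`-secant `(d - 1)`-planes of the rational normal curve of degree `N - 1`. Its ideal `I_{d + 1}` is
generated by the maximal minors of the `(d + 1) × (N - d)` Hankel matrix `(x_{i + j})`, and also by the
`(d + 1)`-minors of the other Hankel matrices in these variables which have at least `d + 1` rows and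
columns (Gruson and Peskine). Let `p t`, `t ∈ T`, be numbers with `2 p t < N`, let `M_{t,J}`
(`hankel N (p t) J`) be the maximal minors of the `p t × (N + 1 - p t)` Hankel matrix, which generate the
ideal `I_{p t}`, let

  `F_t = ∑_J y_{t,J} M_{t,J}(x)`,

where the `y_{t,J}` are further variables, separate for each `t` (`blockForm`), and
let `f = ∏ t, F_t ^ a t` (`powProd`).

The resolution. Let `P` be the maximum of the `p t`, and let `Y` be obtained from the affine space by
blowing up `Σ_0 = {0}` and the strict transforms of `Σ_1, …, Σ_{P - 1}`, in this order. It is smooth,
and the exceptional divisors `E_0, …, E_{P - 1}` cross normally (Bertram; Thaddeus; Vermeire): near a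
point of rank `d` the affine space with the `Σ_{d + j}` and the ideals `I_{d + j}` is the product of a
smooth germ of dimension `2 d` and of the affine space of dimension `N - 2 d` with its `Σ_j` and `I_j`.
So the multiplicity of the Jacobian determinant along `E_d` is `ν_d - 1` with `ν_d = N - 2 d`, and `I_p`
becomes the ideal of the divisor `∑_{d < p} (p - d) E_d`. Locally `F_t` is one of the `M_{t,J}` times
`y_{t,J} + ∑_{i ≠ J} g_i y_{t,i}`. Hence `Y` times the space of the `y` is an embedded resolution
of `f`, with the components `E_d`, of multiplicity `∑ t, a t * max (p t - d, 0)`, and, for `a t > 0`, the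
strict transform of `F_t = 0`, with multiplicity `a t` and `ν = 1` (`mulH`, `nuH`; in these definitions
all `d < (N + 1) / 2` are listed, the `d ≥ P` have the multiplicity `0` and do not matter).

The proof. A functional equation of the product of powers of the `F_t` gives one of the product of
powers of the ideals `I_{p t}`, with the same `b` (`locEq_of_powProd`). A residue computation at a point
of `E_d` at which the divisor is a Rees divisor gives the roots (`rees_prod`). The chart (`xi`): let `H`
be the leading `d × d` Hankel matrix in `2 d` free coordinates, with an antidiagonal matrix at the base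
point, `R_k` the sequence which satisfies the recurrence of length `d` given by `H` and the first `2 d`
coordinates, and `x_k = R_k + z w_k`, where `w_{2 d + c} = 1`, `c = P - d`, the other `w_k` with
`k ≥ 2 d` are coordinates which vanish at the base point, and `w_k = 0` for `k < 2 d`. By Cramer's rule
the quotients of two minors which differ in one column are the entries of a solution of a linear
system whose matrix is invertible at the base point; all the coordinates `w_k`, `k ≥ 2 d`, are, up to
terms of order two and the other coordinates, such quotients (`der_yq`), as `2 p t < N`. So `E_d` is a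
Rees divisor of `I_{p t}` for each `t` with `p t > d`. The roots `-(1 + l) / a t` come from the strict
transforms (`strict_root`). -/

namespace Pool.Agent.Results.MP_504089_ag.HankelDeterminantal

open Pool.Agent.H628R4.TP Pool.Agent.TH192.DT Pool.Agent.R779.HK

/-- **The strong monodromy conjecture holds for `f = ∏ t, F_t ^ a t`**, `F_t` the general form over the
ideal of the `p t`-minors of the Hankel matrices in `N` variables, `2 p t < N`. Let `b` satisfy a
functional equation `b(s) f ^ s = P(s) f ^ (s + 1)`, for instance, let `b` be the Bernstein-Sato
polynomial of `f`. (1) The numbers `-(N - 2 d + l) / N_d`, `0 ≤ l < N_d`, for all `d`, where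
`N_d = ∑ t, a t * max (p t - d, 0)`, and `-(1 + l) / a t`, `0 ≤ l < a t`, are roots of `b`. (2) Every
pole of the global topological zeta function of `f`, computed on the resolution described above (with
arbitrary integers `χ` in the place of the Euler characteristics of the strata), is a root of `b`. -/
theorem result {T : Type} [Fintype T] [DecidableEq T] (N : ℕ) (p a : T → ℕ)
    (hp : ∀ t, 2 * p t < N) (b : Polynomial ℂ)
    (hb : IsBFunction (powProd a fun t => hankel N (p t)) b) :
    (∀ (x : Fin ((N + 1) / 2) ⊕ T) (l : ℕ), l < mulH N p a x →
      b.eval (-((nuH N T x : ℂ) + l) / mulH N p a x) = 0) ∧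
    ∀ (χ : Finset (Fin ((N + 1) / 2) ⊕ T) → ℤ) (s₀ : ℂ),
      (topZ (nuH N T) (mulH N p a) χ).denom.eval s₀ = 0 → b.eval s₀ = 0 :=
  ⟨global_roots N p a hp b hb, fun χ s₀ hs => root_of_pole _ _ χ (nuH_pos N T) b
    (global_roots N p a hp b hb) s₀ hs⟩

end Pool.Agent.Results.MP_504089_ag.HankelDeterminantal
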