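import Pool.Agent.R852.TP.Fin

/-!
# The strong monodromy conjecture for products of powers of forms over ideals

Let `𝓘` and `𝓗` be the least classes of ideals and of hypersurfaces (`TPw StrongAt StrongHyp false`
and `TPw StrongAt StrongHyp true`, together with their global topological zeta functions `Z`) with
the following properties.

* `𝓘` contains the ideals `(x ^ m)`; all non-zero ideals of `ℂ[x, y]`; the ideals of `ℂ[x₀, x₁, x₂]`
  generated by forms of the same degree, three of which are algebraically independent; the ideals
  generated by forms of the same degree without a common zero outside the origin; the ideals whose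
  numerical data come from Rees divisors; the ideals `(f_1, …, f_k)` with very general coefficients at
  the vertices of the Newton polytopes; the products of powers of the ideals of linear subspaces for
  which the wonderful model has only Rees flats.
* `𝓗` contains all plane curves and the polynomials with very general coefficients at the vertices
  of the Newton polytope and arbitrary other terms.
* The principal ideals `(g)` and `(g ^ k)`, `g` in `𝓗`, are in `𝓘`, and `𝓘` is closed under sums and
  products in disjoint sets of variables.
* If the ideal `h ∏_t (f_{t, j})_j ^ a_t` is in `𝓘`, where `h` and the `f_{t, j}` are any polynomials in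
  the same variables `x`, then `h(x) ∏_t (∑_j y_{t, j} f_{t, j}(x)) ^ a_t` is in `𝓗`, with further
  variables `y_{t, j}`.
* `𝓗` contains the Thom-Sebastiani sums `∑ y_j f_j(x) + g(z)` for `(f_j)` in `𝓘` and `g` in `𝓗`, and
  is closed under products in disjoint sets of variables and under dropping variables.

The steps with the powers can be repeated at any place, for instance for
`∑_j y_j f_j(x) + h(z) ∏_t (∑_j u_{t, j} g_{t, j}(z)) ^ a_t`, and then again for the ideals generated by
powers of such polynomials in separate variables.

The zeta function of `h(x) ∏_t (∑_j y_{t, j} f_{t, j}(x)) ^ a_t` is `Z(s) ∏_t 1 / (a_t s + 1)`, if `Z` is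
the one of the ideal: if `Y` is a log resolution of the ideal, then `Y` times the space of the
`y_{t, j}` is an embedded resolution of the polynomial, since locally on `Y` the factor of index `t` is
one of the `f_{t, j}` times a linear form in the `y_{t, j}`, one of whose coefficients is a unit.

We prove that `b_F(s) = ∏_t ∏_{1 ≤ i ≤ a_t} (a_t s + i) b'(s)` where `b'` satisfies a functional equation
of the ideal, and that `b_g` and `b_{g ^ k}` are related by `b_g(s) ∣ b_{g ^ k}(s / k)`.
-/

set_option autoImplicit false

namespace Pool.Agent.Results.MP_504089_ag.PowersOfForms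

open MvPolynomial Pool.Agent.W574.SM Pool.Agent.W574.RO Pool.Agent.H628R4.TP Pool.Agent.Y230.TH
  Pool.Agent.R852.TP

/-- **The strong monodromy conjecture for products of powers of forms.**

(1) Let `F` be a polynomial with `TPw StrongAt StrongHyp false (F) Z`, that is, `F` is in the class
`𝓘` which is described above, and `Z` is its global topological zeta function. Let `b` satisfy a
functional equation `b(s) F ^ s = P(s) F ^ (s + 1)`, where `P(s)` is a differential operator with
polynomial coefficients; for example, let `b` be the Bernstein-Sato polynomial of `F`. Then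
`b(s₀) = 0` for every pole `s₀` of `Z`.

(2) Let `h` and the `f_{t, j}` be arbitrary non-zero polynomials (at least one non-zero `f_{t, j}` for
each `t`) in two variables, let `F = h(x₁, x₂) ∏_t (∑_j y_{t, j} f_{t, j}(x₁, x₂)) ^ a_t` (`formFam`),
`a_t ≥ 1`, and let `Z` be the topological zeta function of the ideal `h ∏_t (f_{t, j})_j ^ a_t`
(`genFam`), so that the one of `F` is `Z ∏_t 1 / (1 + a_t s)`. Let `b` satisfy a functional equation of
`F`. Then `b(s) Z(s) ∏_t 1 / (1 + a_t s)` is a polynomial: each pole of the topological zeta function
is a root of `b`, of at least the same order. -/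
theorem result :
    (∀ (σ : Type) (F : MvPolynomial σ ℂ) (Z : RatFunc ℂ),
      TPw StrongAt StrongHyp false ⟨σ, Fin 1, fun _ => F⟩ Z →
      ∀ b : Polynomial ℂ, IsBFunction F b →
      ∀ s₀ : ℂ, Z.denom.eval s₀ = 0 → b.eval s₀ = 0) ∧
    (∀ (τ : Type) [Fintype τ] [DecidableEq τ] [Nonempty τ] (κ : τ → Type) [∀ t, Fintype (κ t)]
      (a : τ → ℕ), (∀ t, 0 < a t) → ∀ (h : MvPolynomial (Fin 2) ℂ)
      (f : (t : τ) → κ t → MvPolynomial (Fin 2) ℂ), h ≠ 0 → (∀ t, ∃ j, f t j ≠ 0) →
      ∀ Z : RatFunc ℂ, PlaneZeta (genFam a h f).f Z →
      ∀ b : Polynomial ℂ, IsBFunction ((formFam a h f).f 0) b →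
      ∃ P : Polynomial ℂ, algebraMap (Polynomial ℂ) (RatFunc ℂ) b * (Z * ∏ t, fac (a t) 1) =
        algebraMap (Polynomial ℂ) (RatFunc ℂ) P) := by
  refine ⟨fun σ F Z h b hb s₀ hs => tp_strong F Z h b hb s₀ hs, ?_⟩
  intro τ _ _ _ κ _ a ha h f hh hf Z hZ b hb
  exact plane_form a ha h f hh hf Z hZ b hb

end Pool.Agent.Results.MP_504089_ag.PowersOfForms
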